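import Pool.Agent.E8helper48.RA.Alg

/-!
# Few members of a progression are in a space with the hyperplane property
-/

set_option autoImplicit false

namespace Pool.Agent.E8helper37.RP

open Module
open Pool.Agent.W254.Ab (QA mem_QA)
open Pool.Agent.W254.PA (Hyp)
open Pool.Agent.E8helper48.RA (inf_sup_le mm mm_apply mm_inj)

variable {Ω : Type} [Field Ω] [CharZero Ω]

theorem tr_QA {g : Ω} (hg : Transcendental ℚ g) : Transcendental (QA Ω) g := by
  have : Algebra.IsAlgebraic ℚ (QA Ω) :=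
    ⟨fun x => (isAlgebraic_algebraMap_iff (algebraMap (QA Ω) Ω).injective).1 (mem_QA.1 x.2)⟩
  exact fun h => hg (h.restrictScalars ℚ)

theorem tr_ne_zero {g : Ω} (hg : Transcendental ℚ g) : g ≠ 0 := by
  rintro rfl
  exact hg isAlgebraic_zero

/-- powers of a transcendental number are linearly independent -/
theorem pow_indep {g : Ω} (hg : Transcendental ℚ g) {c : Ω} (hc : c ≠ 0) {ι : Type} (e : ι → ℕ)
    (he : Function.Injective e) : LinearIndependent (QA Ω) (fun i : ι => c * g ^ e i) := by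
  have h1 := (Polynomial.basisMonomials (QA Ω)).linearIndependent
  have h2 : Function.Injective (Polynomial.aeval (R := (QA Ω)) g).toLinearMap :=
    transcendental_iff_injective.1 (tr_QA hg)
  have h3 := h1.map' _ (LinearMap.ker_eq_bot.2 h2)
  have h4 := h3.map' (mm c) (LinearMap.ker_eq_bot.2 (mm_inj hc))
  have h5 := h4.comp e he
  have h6 : (fun i : ι => c * g ^ e i) = ((mm c ∘ (Polynomial.aeval (R := (QA Ω)) g).toLinearMap ∘
      (Polynomial.basisMonomials (QA Ω))) ∘ e) := by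
    funext i
    simp
  rw [h6]
  exact h5

theorem span_finrank_le {ι : Type} [Fintype ι] (y : ι → Ω) :
    finrank (QA Ω) (Submodule.span (QA Ω) (Set.range y)) ≤ Fintype.card ι := finrank_range_le_card y

instance span_fd {ι : Type} [Finite ι] (y : ι → Ω) :
    FiniteDimensional (QA Ω) (Submodule.span (QA Ω) (Set.range y)) :=
  FiniteDimensional.span_of_finite (QA Ω) (Set.finite_range y)

/-- the product inequality modulo a space of finite dimension -/
theorem prod_ineq {𝓥 : Submodule (QA Ω) Ω} (h𝓥 : Hyp 𝓥) (X W Y V : Submodule (QA Ω) Ω) [FiniteDimensional (QA Ω) X] [FiniteDimensional (QA Ω) W]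
    [FiniteDimensional (QA Ω) Y] [FiniteDimensional (QA Ω) V] (hW : W ≤ 𝓥 ⊔ V)
    (hY : ∀ x ∈ X, ∀ w ∈ W, x * w ∈ Y) :
    finrank (QA Ω) X * finrank (QA Ω) W ≤ finrank (QA Ω) Y + finrank (QA Ω) X * (finrank (QA Ω) X - 1) +
      finrank (QA Ω) X * finrank (QA Ω) V := by
  have : FiniteDimensional (QA Ω) (W ⊓ 𝓥 : Submodule (QA Ω) Ω) :=
    Submodule.finiteDimensional_of_le inf_le_left
  have h1 := Pool.Agent.W254.Ab.product_le h𝓥 X (W ⊓ 𝓥) Y inf_le_right
    (fun x hx w hw => hY x hx w hw.1)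
  have h2 := inf_sup_le W 𝓥 V
  rw [inf_eq_left.2 hW] at h2
  calc finrank (QA Ω) X * finrank (QA Ω) W ≤
        finrank (QA Ω) X * (finrank (QA Ω) (W ⊓ 𝓥 : Submodule (QA Ω) Ω) + finrank (QA Ω) V) :=
        Nat.mul_le_mul_left _ h2
    _ = finrank (QA Ω) X * finrank (QA Ω) (W ⊓ 𝓥 : Submodule (QA Ω) Ω) + finrank (QA Ω) X * finrank (QA Ω) V := by ring
    _ ≤ _ := Nat.add_le_add_right h1 _

/-- the first powers of `g` -/
noncomputable def Xp (g : Ω) (x : ℕ) : Submodule (QA Ω) Ω :=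
  Submodule.span (QA Ω) (Set.range fun j : Fin x => (1 : Ω) * g ^ (j : ℕ))

instance (g : Ω) (x : ℕ) : FiniteDimensional (QA Ω) (Xp g x) := by unfold Xp; infer_instance

theorem Xp_finrank {g : Ω} (hg : Transcendental ℚ g) (x : ℕ) : finrank (QA Ω) (Xp g x) = x := by
  unfold Xp
  rw [finrank_span_eq_card (pow_indep hg one_ne_zero _ Fin.val_injective)]
  simp

theorem span_mul_le {ι κ : Type} (x : ι → Ω) (w : κ → Ω) (Y : Submodule (QA Ω) Ω)
    (h : ∀ i k, x i * w k ∈ Y) : ∀ a ∈ Submodule.span (QA Ω) (Set.range x),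
    ∀ b ∈ Submodule.span (QA Ω) (Set.range w), a * b ∈ Y := by
  intro a ha b hb
  induction ha using Submodule.span_induction with
  | mem a ha =>
    obtain ⟨i, rfl⟩ := ha
    induction hb using Submodule.span_induction with
    | mem b hb => obtain ⟨k, rfl⟩ := hb; exact h i k
    | zero => rw [mul_zero]; exact Y.zero_mem
    | add u v _ _ hu hv => rw [mul_add]; exact Y.add_mem hu hv
    | smul c u _ hu => rw [mul_smul_comm]; exact Y.smul_mem c hu
  | zero => rw [zero_mul]; exact Y.zero_mem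
  | add u v _ _ hu hv => rw [add_mul]; exact Y.add_mem hu hv
  | smul c u _ hu => rw [smul_mul_assoc]; exact Y.smul_mem c hu

/-- (L1) -/
theorem exists_power {𝓥 : Submodule (QA Ω) Ω} (h𝓥 : Hyp 𝓥) {θ κ : Ω} (hθ : Transcendental ℚ θ) (hκ : κ ≠ 0) (V : Submodule (QA Ω) Ω)
    [FiniteDimensional (QA Ω) V] {K : ℕ} (hK : 2 * finrank (QA Ω) V + 4 ≤ K) :
    ∃ k : Fin K, κ * θ ^ (k : ℕ) ∉ 𝓥 ⊔ V := by
  by_contra hcon
  push Not at hcon
  have h1 := prod_ineq h𝓥 (Xp θ 2) (Submodule.span (QA Ω) (Set.range fun k : Fin K => κ * θ ^ (k : ℕ)))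
    (Submodule.span (QA Ω) (Set.range fun k : Fin (K + 1) => κ * θ ^ (k : ℕ))) V (by
      rw [Submodule.span_le]
      rintro _ ⟨k, rfl⟩
      exact hcon k) (by
      unfold Xp
      apply span_mul_le
      intro i k
      apply Submodule.subset_span
      refine ⟨⟨i + k, by omega⟩, ?_⟩
      simp only
      rw [pow_add]; ring)
  rw [Xp_finrank hθ, finrank_span_eq_card (pow_indep hθ hκ _ Fin.val_injective),
    finrank_span_eq_card (pow_indep hθ hκ _ Fin.val_injective)] at h1
  simp only [Fintype.card_fin] at h1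
  omega

/-- (L2) -/
theorem geom_le {𝓥 : Submodule (QA Ω) Ω} (h𝓥 : Hyp 𝓥) {g κ : Ω} (hg : Transcendental ℚ g) (hκ : κ ≠ 0) (V : Submodule (QA Ω) Ω)
    [FiniteDimensional (QA Ω) V] {h : ℕ} (I : Finset ℕ)
    (hI : ∀ i ∈ I, i < h + 1 ∧ κ * g ^ i ∈ 𝓥 ⊔ V) :
    I.card ≤ finrank (QA Ω) V + 2 * Nat.sqrt h + 2 := by
  set x := Nat.sqrt h + 1 with hx
  have h1 := prod_ineq h𝓥 (Xp g x) (Submodule.span (QA Ω) (Set.range fun i : I => κ * g ^ (i : ℕ)))
    (Submodule.span (QA Ω) (Set.range fun k : Fin (h + x) => κ * g ^ (k : ℕ))) V (by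
      rw [Submodule.span_le]
      rintro _ ⟨i, rfl⟩
      exact (hI i i.2).2) (by
      unfold Xp
      apply span_mul_le
      intro j i
      apply Submodule.subset_span
      have := (hI i i.2).1
      refine ⟨⟨j + i, by omega⟩, ?_⟩
      simp only
      rw [pow_add]; ring)
  rw [Xp_finrank hg, finrank_span_eq_card (pow_indep hg hκ _ Subtype.val_injective),
    finrank_span_eq_card (pow_indep hg hκ _ Fin.val_injective)] at h1
  simp only [Fintype.card_fin, Fintype.card_coe] at h1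
  have h2 : h < x * x := Nat.lt_succ_sqrt h
  have h3 : x * (x - 1) + x = x * x := by
    rw [hx, Nat.add_sub_cancel]; ring
  by_contra hcon
  have h4 : finrank (QA Ω) V + 2 * x + 1 ≤ I.card := by omega
  have h5 := Nat.mul_le_mul_left x h4
  have h6 : x * (finrank (QA Ω) V + 2 * x + 1) = x * finrank (QA Ω) V + 2 * (x * x) + x := by ring
  rw [h6] at h5
  have h7 : 0 < x := by omega
  omega

/-- partial fractions -/
theorem inv_indep {ξ : Ω} (hξ : Transcendental ℚ ξ) (I : Finset ℕ) :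
    LinearIndependent (QA Ω) (fun i : I => (ξ + ((i : ℕ) : Ω))⁻¹) := by
  classical
  rw [Fintype.linearIndependent_iff]
  intro c hc i₀
  have hne : ∀ n : ℕ, ξ + (n : Ω) ≠ 0 := by
    intro n h
    apply hξ
    rw [eq_neg_of_add_eq_zero_left h]
    exact (isAlgebraic_natCast n).neg
  let p : Polynomial (QA Ω) := ∑ i : I, Polynomial.C (c i) *
    ∏ j ∈ (Finset.univ : Finset I).erase i, (Polynomial.X + Polynomial.C ((j : ℕ) : (QA Ω)))
  have h1 : Polynomial.aeval ξ p = 0 := by
    have h2 : ∀ i : I, Polynomial.aeval ξ (Polynomial.C (c i) *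
        ∏ j ∈ (Finset.univ : Finset I).erase i, (Polynomial.X + Polynomial.C ((j : ℕ) : (QA Ω)))) =
        (∏ j : I, (ξ + ((j : ℕ) : Ω))) * (c i • (ξ + ((i : ℕ) : Ω))⁻¹) := by
      intro i
      rw [← Finset.mul_prod_erase _ _ (Finset.mem_univ i), map_mul, map_prod, Polynomial.aeval_C,
        Algebra.smul_def]
      have h3 : ∀ j : I, Polynomial.aeval ξ (Polynomial.X + Polynomial.C ((j : ℕ) : (QA Ω))) =
          ξ + ((j : ℕ) : Ω) := by
        intro j
        rw [map_add, Polynomial.aeval_X, Polynomial.aeval_C, map_natCast]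
      rw [Finset.prod_congr rfl fun j _ => h3 j]
      have h4 := hne i
      field_simp
    simp only [p]
    rw [map_sum, Finset.sum_congr rfl fun i _ => h2 i, ← Finset.mul_sum, hc, mul_zero]
  have h2 : p = 0 := by
    by_contra hp
    exact tr_QA hξ ⟨p, hp, h1⟩
  have h3 := congrArg (Polynomial.eval (-((i₀ : ℕ) : (QA Ω)))) h2
  simp only [p] at h3
  rw [Polynomial.eval_finsetSum, Finset.sum_eq_single i₀, Polynomial.eval_mul, Polynomial.eval_C,
    Polynomial.eval_prod, Polynomial.eval_zero, mul_eq_zero] at h3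
  · rcases h3 with h3 | h3
    · exact h3
    · exfalso
      rw [Finset.prod_eq_zero_iff] at h3
      obtain ⟨j, hj, h4⟩ := h3
      rw [Polynomial.eval_add, Polynomial.eval_X, Polynomial.eval_C] at h4
      have h5 : ((j : ℕ) : (QA Ω)) = ((i₀ : ℕ) : (QA Ω)) := by linear_combination h4
      have h6 : (j : ℕ) = (i₀ : ℕ) := by exact_mod_cast h5
      exact (Finset.mem_erase.1 hj).1 (Subtype.ext h6)
  · intro b _ hb
    rw [Polynomial.eval_mul, Polynomial.eval_prod, Finset.prod_eq_zero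
      (Finset.mem_erase.2 ⟨hb.symm, Finset.mem_univ i₀⟩), mul_zero]
    rw [Polynomial.eval_add, Polynomial.eval_X, Polynomial.eval_C]
    ring
  · intro h
    exact absurd (Finset.mem_univ _) h

/-- (L3) -/
theorem mob_le {𝓥 : Submodule (QA Ω) Ω} (h𝓥 : Hyp 𝓥) {ξ η β : Ω} (hξ : Transcendental ℚ ξ) (hη : η ≠ 0) (V : Submodule (QA Ω) Ω)
    [FiniteDimensional (QA Ω) V] (I : Finset ℕ)
    (hI : ∀ i ∈ I, β + η * (ξ + (i : Ω))⁻¹ ∈ 𝓥 ⊔ V) :
    I.card ≤ 2 * finrank (QA Ω) V + 7 := by
  have hne : ∀ n : ℕ, ξ + (n : Ω) ≠ 0 := by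
    intro n h
    apply hξ
    rw [eq_neg_of_add_eq_zero_left h]
    exact (isAlgebraic_natCast n).neg
  have hz : LinearIndependent (QA Ω) (fun i : I => η * (ξ + ((i : ℕ) : Ω))⁻¹) :=
    (inv_indep hξ I).map' (mm η) (LinearMap.ker_eq_bot.2 (mm_inj hη))
  set Z : Submodule (QA Ω) Ω := Submodule.span (QA Ω) (Set.range fun i : I => η * (ξ + ((i : ℕ) : Ω))⁻¹)
    with hZ
  have hZr : finrank (QA Ω) Z = I.card := by
    rw [hZ, finrank_span_eq_card hz, Fintype.card_coe]
  set W : Submodule (QA Ω) Ω := Submodule.span (QA Ω)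
    (Set.range fun i : I => β + η * (ξ + ((i : ℕ) : Ω))⁻¹) with hW
  have hW1 : I.card ≤ finrank (QA Ω) W + 1 := by
    rw [← hZr]
    have h1 : Z ≤ W ⊔ Submodule.span (QA Ω) {β} := by
      rw [hZ, Submodule.span_le]
      rintro _ ⟨i, rfl⟩
      have h2 : η * (ξ + ((i : ℕ) : Ω))⁻¹ = (β + η * (ξ + ((i : ℕ) : Ω))⁻¹) - β := by ring
      simp only
      rw [h2]
      exact Submodule.sub_mem _ (Submodule.mem_sup_left (Submodule.subset_span ⟨i, rfl⟩))
        (Submodule.mem_sup_right (Submodule.mem_span_singleton_self β))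
    have h3 := Submodule.finrank_mono h1
    have h4 := Submodule.finrank_add_le_finrank_add_finrank W (Submodule.span (QA Ω) {β})
    have h5 : finrank (QA Ω) (Submodule.span (QA Ω) {β}) ≤ 1 := by
      have := finrank_span_le_card (R := (QA Ω)) ({β} : Set Ω)
      simpa using this
    omega
  set Y : Submodule (QA Ω) Ω := Z ⊔ Submodule.span (QA Ω) (Set.range ![η, β, β * ξ]) with hYd
  have hY1 : finrank (QA Ω) Y ≤ I.card + 3 := by
    have h4 := Submodule.finrank_add_le_finrank_add_finrank Z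
      (Submodule.span (QA Ω) (Set.range ![η, β, β * ξ]))
    have h5 := span_finrank_le ![η, β, β * ξ]
    rw [Fintype.card_fin] at h5
    rw [hYd]
    omega
  have h1 := prod_ineq h𝓥 (Xp ξ 2) W Y V (by
      rw [hW, Submodule.span_le]
      rintro _ ⟨i, rfl⟩
      exact hI i i.2) (by
      unfold Xp
      rw [hW]
      apply span_mul_le
      intro j i
      have e0 : η ∈ Y := Submodule.mem_sup_right (Submodule.subset_span ⟨0, rfl⟩)
      have e1 : β ∈ Y := Submodule.mem_sup_right (Submodule.subset_span ⟨1, rfl⟩)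
      have e2 : β * ξ ∈ Y := Submodule.mem_sup_right (Submodule.subset_span ⟨2, rfl⟩)
      have e3 : η * (ξ + ((i : ℕ) : Ω))⁻¹ ∈ Y :=
        Submodule.mem_sup_left (Submodule.subset_span ⟨i, rfl⟩)
      fin_cases j
      · simp only [pow_zero, one_mul]
        exact Y.add_mem e1 e3
      · have e4 : (1 : Ω) * ξ ^ 1 * (β + η * (ξ + ((i : ℕ) : Ω))⁻¹) =
            β * ξ + η - ((i : ℕ) : (QA Ω)) • (η * (ξ + ((i : ℕ) : Ω))⁻¹) := by
          rw [Algebra.smul_def, map_natCast]
          have := hne i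
          field_simp
          ring
        simp only
        rw [e4]
        exact Y.sub_mem (Y.add_mem e2 e0) (Y.smul_mem _ e3))
  rw [Xp_finrank hξ] at h1
  omega


end Pool.Agent.E8helper37.RP
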