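import Pool.Agent.E8helper37.RP.Val
import Pool.Agent.E8helper37.RP.Alg

/-!
# The pattern gives few bad values
-/

set_option autoImplicit false

namespace Pool.Agent.E8helper37.RP

open Finset Module
open Pool.Agent.E8helper37.RX
open Pool.Agent.W254.Ab (QA mem_QA)
open Pool.Agent.W254.PA (Hyp)

variable {Ω : Type} [Field Ω] [CharZero Ω]

theorem card_le_one_of {I : Finset ℕ} (h : ∀ i ∈ I, ∀ j ∈ I, i = j) : (I.card : ℝ) ≤ 1 := by
  have := Finset.card_le_one.2 h
  exact_mod_cast this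

section

variable {𝓥 : Submodule (QA Ω) Ω} {θ : Ω}

theorem mu_ne (hθ : Transcendental ℚ θ) : θ * (θ - 1) ≠ 0 := by
  have h0 : θ ≠ 0 := fun h => hθ (by rw [h]; exact isAlgebraic_zero)
  have h1 : θ ≠ 1 := fun h => hθ (by rw [h]; exact isAlgebraic_one)
  exact mul_ne_zero h0 (sub_ne_zero.2 h1)

theorem diff_mem {κ : Ω} (V : Submodule (QA Ω) Ω) {k m n : ℕ}
    (hk : κ * θ ^ k ∉ 𝓥 ⊔ V) {z : Ω} (h1 : z + κ * (θ ^ k * (m : Ω)) ∈ 𝓥 ⊔ V)
    (h2 : z + κ * (θ ^ k * (n : Ω)) ∈ 𝓥 ⊔ V) : m = n := by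
  by_contra hmn
  apply hk
  have h3 := (𝓥 ⊔ V).sub_mem h1 h2
  have h4 : ((m : (QA Ω)) - (n : (QA Ω))) ≠ 0 := by
    intro h
    apply hmn
    have : (m : (QA Ω)) = (n : (QA Ω)) := by linear_combination h
    exact_mod_cast this
  have h5 := (𝓥 ⊔ V).smul_mem (((m : (QA Ω)) - (n : (QA Ω)))⁻¹) h3
  have h6 : ((m : (QA Ω)) - (n : (QA Ω)))⁻¹ • (z + κ * (θ ^ k * (m : Ω)) -
      (z + κ * (θ ^ k * (n : Ω)))) = κ * θ ^ k := by
    rw [Algebra.smul_def, map_inv₀, map_sub, map_natCast, map_natCast]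
    have h7 : ((m : Ω) - (n : Ω)) ≠ 0 := by
      intro h
      apply hmn
      have : (m : Ω) = (n : Ω) := by linear_combination h
      exact_mod_cast this
    field_simp
    ring
  rwa [h6] at h5

/-- (B1) -/
theorem base_mob (h𝓥 : Hyp 𝓥) (hθ : Transcendental ℚ θ) {a b c d : Ω} (hdet : a * d ≠ b * c) (V : Submodule (QA Ω) Ω)
    [FiniteDimensional (QA Ω) V] {N K h : ℕ} (hV : finrank (QA Ω) V ≤ N) (hK : 2 * N + 4 ≤ K) :
    ∑ i : Fin K → Fin (h + 1), ind ((a * (pt θ K h i) + b) /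
      (c * (pt θ K h i) + d) ∈ 𝓥 ⊔ V) ≤
      ((2 * N + 8 : ℝ) / ((h : ℝ) + 1)) * ((h : ℝ) + 1) ^ K := by
  have hh : (0 : ℝ) < (h : ℝ) + 1 := by positivity
  have hμ := mu_ne hθ
  set μ : Ω := (θ * (θ - 1)) with hμd
  have hpt : ∀ (i : Fin K → Fin (h + 1)) (k : Fin K) (x : Fin (h + 1)),
      (pt θ K h (Function.update i k x)) =
        (pt θ K h (Function.update i k 0)) + μ * (θ ^ (k : ℕ) * ((x : ℕ) : Ω)) := by
    intro i k x
    rw [pt_update, hμd]
  by_cases hc : c = 0
  · subst hc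
    rw [mul_zero] at hdet
    have ha : a ≠ 0 := left_ne_zero_of_mul hdet
    have hd : d ≠ 0 := right_ne_zero_of_mul hdet
    obtain ⟨k, hk⟩ := exists_power h𝓥 hθ (κ := a / d * μ) (mul_ne_zero (div_ne_zero ha hd) hμ) V
      (K := K) (by omega)
    refine (count_coord k _ 1 ?_).trans ?_
    · intro i
      apply sum_ind_le
      intro I hI
      apply card_le_one_of
      intro m hm n hn
      obtain ⟨hm1, hm2⟩ := hI m hm
      obtain ⟨hn1, hn2⟩ := hI n hn
      rw [hpt] at hm2 hn2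
      refine diff_mem V hk (z := (a * (pt θ K h (Function.update i k 0)) + b) / d) ?_ ?_
      · convert hm2 using 1
        rw [zero_mul, zero_add]
        field_simp
        ring
      · convert hn2 using 1
        rw [zero_mul, zero_add]
        field_simp
        ring
    · apply mul_le_mul_of_nonneg_right _ (by positivity)
      apply div_le_div_of_nonneg_right _ hh.le
      have : (0 : ℝ) ≤ N := by positivity
      linarith
  · obtain ⟨k0, hk0⟩ : ∃ k0 : Fin K, (k0 : ℕ) = 0 := ⟨⟨0, by omega⟩, rfl⟩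
    obtain ⟨k1, hk1⟩ : ∃ k1 : Fin K, (k1 : ℕ) = 1 := ⟨⟨1, by omega⟩, rfl⟩
    have hk01 : k0 ≠ k1 := fun h => by rw [h] at hk0; omega
    let ξ : (Fin K → Fin (h + 1)) → Ω := fun i =>
      ((pt θ K h (Function.update i k0 0)) + d / c) / μ
    have hsplit : ∀ i : Fin K → Fin (h + 1), ind ((a * (pt θ K h i) + b) /
        (c * (pt θ K h i) + d) ∈ 𝓥 ⊔ V) ≤ ind (IsAlgebraic ℚ (ξ i)) +
        ind (¬ IsAlgebraic ℚ (ξ i) ∧ (a * (pt θ K h i) + b) /
          (c * (pt θ K h i) + d) ∈ 𝓥 ⊔ V) := by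
      intro i
      by_cases h1 : IsAlgebraic ℚ (ξ i)
      · rw [ind_pos h1]
        have := ind_le_one ((a * (pt θ K h i) + b) /
          (c * (pt θ K h i) + d) ∈ 𝓥 ⊔ V)
        have := ind_nonneg (¬ IsAlgebraic ℚ (ξ i) ∧ (a * (pt θ K h i) + b) /
          (c * (pt θ K h i) + d) ∈ 𝓥 ⊔ V)
        linarith
      · rw [ind_neg h1, zero_add]
        exact ind_mono fun h => ⟨h1, h⟩
    have hB1 : ∑ i : Fin K → Fin (h + 1), ind (IsAlgebraic ℚ (ξ i)) ≤
        1 / ((h : ℝ) + 1) * ((h : ℝ) + 1) ^ K := by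
      apply count_coord k1
      intro i
      apply sum_ind_le
      intro I hI
      apply card_le_one_of
      intro m hm n hn
      obtain ⟨hm1, hm2⟩ := hI m hm
      obtain ⟨hn1, hn2⟩ := hI n hn
      by_contra hmn
      have h1 := hm2.sub hn2
      simp only [ξ] at h1
      rw [Function.update_comm hk01.symm, Function.update_comm hk01.symm, hpt, hpt _ k1 ⟨n, hn1⟩,
        hk1] at h1
      have h2 : ((pt θ K h (Function.update (Function.update i k0 0) k1 0)) +
          μ * (θ ^ 1 * (m : Ω)) + d / c) / μ -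
          ((pt θ K h (Function.update (Function.update i k0 0) k1 0)) +
          μ * (θ ^ 1 * (n : Ω)) + d / c) / μ = θ * ((m : Ω) - n) := by
        field_simp
        ring
      rw [h2] at h1
      have h3 : ((m : Ω) - n) ≠ 0 := by
        intro h
        apply hmn
        have : (m : Ω) = (n : Ω) := by linear_combination h
        exact_mod_cast this
      apply hθ
      have h4 : θ = (θ * ((m : Ω) - n)) * ((m : Ω) - n)⁻¹ := by field_simp
      rw [h4]
      exact h1.mul ((isAlgebraic_natCast m).sub (isAlgebraic_natCast n)).inv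
    have hB2 : ∑ i : Fin K → Fin (h + 1), ind (¬ IsAlgebraic ℚ (ξ i) ∧
        (a * (pt θ K h i) + b) / (c * (pt θ K h i) + d) ∈ 𝓥 ⊔ V) ≤
        (2 * N + 7 : ℝ) / ((h : ℝ) + 1) * ((h : ℝ) + 1) ^ K := by
      apply count_coord k0
      intro i
      apply sum_ind_le
      intro I hI
      rcases I.eq_empty_or_nonempty with rfl | ⟨n0, hn0⟩
      · rw [Finset.card_empty]; push_cast; positivity
      have hξ0 : Transcendental ℚ (ξ i) := by
        obtain ⟨hn1, hn2, -⟩ := hI n0 hn0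
        simp only [ξ, Function.update_idem] at hn2 ⊢
        exact hn2
      have h1 := mob_le h𝓥 hξ0 (η := (b * c - a * d) / (c ^ 2 * μ)) (β := a / c)
        (div_ne_zero (sub_ne_zero.2 (Ne.symm hdet)) (mul_ne_zero (pow_ne_zero 2 hc) hμ)) V I (by
        intro n hn
        obtain ⟨hn1, -, hn3⟩ := hI n hn
        rw [hpt, hk0] at hn3
        have hne : ξ i + (n : Ω) ≠ 0 := by
          intro h
          apply hξ0
          rw [eq_neg_of_add_eq_zero_left h]
          exact (isAlgebraic_natCast n).neg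
        have h2 : (pt θ K h (Function.update i k0 0)) = μ * ξ i - d / c := by
          simp only [ξ]; field_simp; ring
        rw [h2] at hn3
        convert hn3 using 1
        have h3 : c * (μ * ξ i - d / c + μ * (θ ^ 0 * (n : Ω))) + d = c * μ * (ξ i + n) := by
          field_simp; ring
        have h4 : a * (μ * ξ i - d / c + μ * (θ ^ 0 * (n : Ω))) + b =
            a * μ * (ξ i + n) - a * d / c + b := by
          field_simp; ring
        rw [h3, h4]
        generalize ξ i + (n : Ω) = w at hne ⊢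
        field_simp
        ring)
      have h2 : (I.card : ℝ) ≤ 2 * finrank (QA Ω) V + 7 := by exact_mod_cast h1
      have h3 : (finrank (QA Ω) V : ℝ) ≤ N := by exact_mod_cast hV
      linarith
    calc _ ≤ ∑ i : Fin K → Fin (h + 1), (ind (IsAlgebraic ℚ (ξ i)) +
          ind (¬ IsAlgebraic ℚ (ξ i) ∧ (a * (pt θ K h i) + b) /
            (c * (pt θ K h i) + d) ∈ 𝓥 ⊔ V)) := Finset.sum_le_sum fun i _ => hsplit i
      _ ≤ _ := by
        rw [Finset.sum_add_distrib]
        refine (add_le_add hB1 hB2).trans (le_of_eq ?_)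
        ring

section

open Polynomial

/-- divided differences: more than `D` values of a polynomial of degree `D` at `x + ν n` in a space
over the algebraic numbers give the leading coefficient -/
theorem lead_mem (W : Submodule (QA Ω) Ω) (F : Polynomial Ω) {ν x : Ω} (hν : ν ≠ 0) (I : Finset ℕ)
    (hI : ∀ n ∈ I, F.eval (x + ν * (n : Ω)) ∈ W) (hc : F.natDegree < I.card) (hF : F ≠ 0) :
    F.leadingCoeff * ν ^ F.natDegree ∈ W := by
  classical
  obtain ⟨J, hJI, hJ⟩ := Finset.exists_subset_card_eq (show F.natDegree + 1 ≤ I.card by omega)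
  set G : Polynomial Ω := F.comp (C ν * X + C x) with hG
  have hlin : (C ν * X + C x : Polynomial Ω).natDegree = 1 := natDegree_linear hν
  have hGd : G.natDegree = F.natDegree := by
    rw [hG, natDegree_comp, hlin, mul_one]
  have hGl : G.leadingCoeff = F.leadingCoeff * ν ^ F.natDegree := by
    rw [hG, leadingCoeff_comp (by rw [hlin]; exact one_ne_zero), leadingCoeff_linear hν]
  have hG0 : G ≠ 0 := by
    intro h
    rw [h, leadingCoeff_zero] at hGl
    exact mul_ne_zero (leadingCoeff_ne_zero.2 hF) (pow_ne_zero _ hν) hGl.symm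
  have h1 := Lagrange.leadingCoeff_eq_sum (s := J) (v := fun n : ℕ => (n : Ω)) (P := G)
    (fun a _ b _ h => Nat.cast_injective h) (by
      rw [hJ, degree_eq_natDegree hG0, hGd]
      push_cast
      rfl)
  rw [← hGl, h1]
  refine W.sum_mem fun n hn => ?_
  have h2 := W.smul_mem ((∏ j ∈ J.erase n, ((n : (QA Ω)) - (j : (QA Ω))))⁻¹) (hI n (hJI hn))
  have h3 : ((∏ j ∈ J.erase n, ((n : (QA Ω)) - (j : (QA Ω))))⁻¹ : (QA Ω)) • F.eval (x + ν * (n : Ω)) =
      G.eval (n : Ω) / ∏ j ∈ J.erase n, ((n : Ω) - (j : Ω)) := by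
    rw [Algebra.smul_def, map_inv₀, map_prod, hG, eval_comp]
    simp only [map_sub, map_natCast, eval_add, eval_mul, eval_C, eval_X]
    rw [div_eq_inv_mul, add_comm x]
  rw [h3] at h2
  exact h2

/-- few bad values of a polynomial -/
theorem base_poly (h𝓥 : Hyp 𝓥) (hθ : Transcendental ℚ θ) (F : Polynomial Ω) {D : ℕ}
    (h1 : 1 ≤ F.natDegree) (hD : F.natDegree ≤ D) (V : Submodule (QA Ω) Ω)
    [FiniteDimensional (QA Ω) V] {N K h : ℕ} (hV : finrank (QA Ω) V ≤ N) (hK : 2 * N + 4 ≤ K) :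
    ∑ i : Fin K → Fin (h + 1), ind (F.eval (pt θ K h i) ∈ 𝓥 ⊔ V) ≤
      ((D : ℝ) / ((h : ℝ) + 1)) * ((h : ℝ) + 1) ^ K := by
  have hμ := mu_ne hθ
  have hF : F ≠ 0 := by
    rintro rfl
    rw [natDegree_zero] at h1
    omega
  have hθD : Transcendental ℚ (θ ^ F.natDegree) := by
    intro h
    exact hθ (IsAlgebraic.of_pow (by omega) h)
  obtain ⟨k, hk⟩ := exists_power h𝓥 hθD
    (κ := F.leadingCoeff * (θ * (θ - 1)) ^ F.natDegree)
    (mul_ne_zero (leadingCoeff_ne_zero.2 hF) (pow_ne_zero _ hμ)) V (K := K) (by omega)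
  apply count_coord k
  intro i
  apply sum_ind_le
  intro I hI
  have h2 : I.card ≤ F.natDegree := by
    by_contra hcon
    push Not at hcon
    apply hk
    have h3 := lead_mem (𝓥 ⊔ V) F (ν := (θ * (θ - 1)) * θ ^ (k : ℕ))
      (x := (pt θ K h (Function.update i k 0)))
      (mul_ne_zero hμ (pow_ne_zero _ (tr_ne_zero hθ))) I (by
        intro n hn
        obtain ⟨hn1, hn2⟩ := hI n hn
        convert hn2 using 2
        rw [pt_update θ i k ⟨n, hn1⟩]
        push_cast
        ring) hcon hF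
    convert h3 using 1
    rw [mul_pow (θ * (θ - 1)), ← pow_mul, ← pow_mul, mul_comm F.natDegree, mul_assoc]
  have h3 : (I.card : ℝ) ≤ F.natDegree := by exact_mod_cast h2
  have h4 : (F.natDegree : ℝ) ≤ D := by exact_mod_cast hD
  linarith

end

end

end Pool.Agent.E8helper37.RP
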