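import Pool.Agent.E8helper37.RP.Base
import Pool.Agent.E8helper37.RX.Asy

/-!
# Almost all arithmetic expressions over a field with a hyperplane property
-/

set_option autoImplicit false

namespace Pool.Agent.E8helper37.RP

open Finset Module
open Pool.Agent.E8helper37.RX (Expr ex Tn An Has avoid fringe fam fam_nodes fam_card fam_inj comb lst ind ind_pos
  ind_neg ind_nonneg ind_le_one ind_mono Tn_nonneg mem_ex)
open Pool.Agent.W254.Ab (QA mem_QA)
open Pool.Agent.W254.PA (Hyp)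

variable {σ ο Ω : Type} [Field Ω]

section

variable [Fintype σ] [Fintype ο] [DecidableEq σ] [DecidableEq ο]

theorem assemble {f : ο → Ω → Ω → Ω} {v : σ → Ω} {p q : ο} (hp : f p = fun x y => x + y)
    (hq : f q = fun x y => x * y) (hpq : p ≠ q) (s : σ) (Φ : (Ω → Prop) → Prop)
    (hΦ : ∀ P, Φ P → ∀ (o : ο) (t : Expr σ ο), Φ (fun x => P (f o x (t.value f v))) ∧
      Φ (fun x => P (f o (t.value f v) x))) (K h : ℕ) (hK : 1 ≤ K) (δ : ℝ) (hδ0 : 0 ≤ δ)
    (hδ : ∀ P, Φ P → ∑ i : Fin K → Fin (h + 1), ind (P (pt (v s) K h i)) ≤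
      δ * ((h : ℝ) + 1) ^ K) {ε : ℝ} (hε : 0 < ε) :
    ∃ n₀, ∀ n ≥ n₀, ∀ P, Φ P → ∑ t ∈ ex σ ο n, ind (P (t.value f v)) ≤ (δ + ε) * Tn σ ο n := by
  have hm : ∀ t ∈ fam p q s K h, t.nodes = K * (h + 1) := fam_nodes p q s K h
  have hm0 : 1 ≤ K * (h + 1) := Nat.mul_pos hK (by omega)
  have hne : (fam p q s K h).Nonempty := by
    unfold fam
    exact Finset.univ_nonempty.image _
  obtain ⟨n₀, hn₀⟩ := avoid hm hm0 hne (Fintype.card_pos_iff.2 ⟨s⟩) (Fintype.card_pos_iff.2 ⟨p⟩) hε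
  refine ⟨n₀, fun n hn P hP => ?_⟩
  have h1 := fringe hm hm0 Φ hΦ δ hδ0 (fun P hP => by
    rw [fam_sum hp hq hpq s K h P, fam_card hpq]
    exact hδ P hP) n P hP
  have h2 := hn₀ n hn
  have h3 : ∑ t ∈ ex σ ο n, ind (Has (fam p q s K h) t) ≤ Tn σ ο n := by
    unfold Tn
    calc _ ≤ ∑ t ∈ ex σ ο n, (1 : ℝ) := Finset.sum_le_sum fun t _ => ind_le_one _
      _ = _ := by simp
  have h4 : ∑ t ∈ ex σ ο n, ind (P (t.value f v)) ≤
      ∑ t ∈ ex σ ο n, ind (Has (fam p q s K h) t ∧ P (t.value f v)) + An (fam p q s K h) n := by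
    unfold An
    rw [← Finset.sum_add_distrib]
    refine Finset.sum_le_sum fun t _ => ?_
    by_cases h5 : Has (fam p q s K h) t
    · rw [ind_neg (not_not.2 h5), add_zero]
      exact ind_mono fun h => ⟨h5, h⟩
    · rw [ind_pos h5]
      have := ind_le_one (P (t.value f v))
      have := ind_nonneg (Has (fam p q s K h) t ∧ P (t.value f v))
      linarith
  have h5 := mul_le_mul_of_nonneg_left h3 hδ0
  rw [add_mul]
  linarith

end

/-- each operation is one of `+`, `*`, `/` -/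
def Ari (f : ο → Ω → Ω → Ω) : Prop :=
  ∀ o, f o = (fun x y => x + y) ∨ f o = (fun x y => x * y) ∨ f o = fun x y => x / y

/-- each operation is one of `+`, `*` -/
def Semi (f : ο → Ω → Ω → Ω) : Prop := ∀ o, f o = (fun x y => x + y) ∨ f o = (fun x y => x * y)

theorem Semi.ari {f : ο → Ω → Ω → Ω} (hf : Semi f) : Ari f := fun o =>
  (hf o).elim Or.inl fun h => Or.inr (Or.inl h)

/-- the values -/
def Val (f : ο → Ω → Ω → Ω) (v : σ → Ω) : Set Ω := {z | ∃ t : Expr σ ο, t.value f v = z}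

theorem Val_op {f : ο → Ω → Ω → Ω} {v : σ → Ω} (o : ο) {x y : Ω} (hx : x ∈ Val f v)
    (hy : y ∈ Val f v) : f o x y ∈ Val f v := by
  obtain ⟨t, rfl⟩ := hx
  obtain ⟨t', rfl⟩ := hy
  exact ⟨Expr.node o t t', rfl⟩

/-- the predicates a Möbius transform of `x` is bad -/
def PhiM (A : Set Ω) (R : (Ω → Prop) → Prop) (P : Ω → Prop) : Prop :=
  ∃ (a b c d : Ω) (Q : Ω → Prop), a * d ≠ b * c ∧ R Q ∧
    ∀ x ∈ A, P x → Q ((a * x + b) / (c * x + d))

theorem PhiM_closed {f : ο → Ω → Ω → Ω} (hf : Ari f) {v : σ → Ω} (hv : 0 ∉ Val f v)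
    (R : (Ω → Prop) → Prop) : ∀ P, PhiM (Val f v) R P → ∀ (o : ο) (t : Expr σ ο),
      PhiM (Val f v) R (fun x => P (f o x (t.value f v))) ∧
        PhiM (Val f v) R (fun x => P (f o (t.value f v) x)) := by
  intro P hP o t
  obtain ⟨y, hy⟩ : ∃ y, y = t.value f v := ⟨_, rfl⟩
  have hyA : y ∈ Val f v := ⟨t, hy.symm⟩
  have hy0 : y ≠ 0 := fun h => hv (h ▸ hyA)
  rw [← hy]
  obtain ⟨a, b, c, d, Q, hdet, hQ, hP⟩ := hP
  have hop : ∀ x ∈ Val f v, f o x y ∈ Val f v := fun x hx => Val_op o hx hyA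
  have hop' : ∀ x ∈ Val f v, f o y x ∈ Val f v := fun x hx => Val_op o hyA hx
  rcases hf o with h | h | h
  · rw [h] at hop hop' ⊢
    constructor
    · refine ⟨a, a * y + b, c, c * y + d, Q, ?_, hQ, fun x hx hPx => ?_⟩
      · intro h; apply hdet; linear_combination h
      · convert hP (x + y) (hop x hx) hPx using 2 <;> ring
    · refine ⟨a, a * y + b, c, c * y + d, Q, ?_, hQ, fun x hx hPx => ?_⟩
      · intro h; apply hdet; linear_combination h
      · convert hP (y + x) (hop' x hx) hPx using 2 <;> ring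
  · rw [h] at hop hop' ⊢
    constructor
    · refine ⟨a * y, b, c * y, d, Q, ?_, hQ, fun x hx hPx => ?_⟩
      · intro h; apply hdet
        apply mul_left_cancel₀ hy0
        linear_combination h
      · convert hP (x * y) (hop x hx) hPx using 2 <;> ring
    · refine ⟨a * y, b, c * y, d, Q, ?_, hQ, fun x hx hPx => ?_⟩
      · intro h; apply hdet
        apply mul_left_cancel₀ hy0
        linear_combination h
      · convert hP (y * x) (hop' x hx) hPx using 2 <;> ring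
  · rw [h] at hop hop' ⊢
    constructor
    · refine ⟨a * y⁻¹, b, c * y⁻¹, d, Q, ?_, hQ, fun x hx hPx => ?_⟩
      · intro h; apply hdet
        apply mul_left_cancel₀ (inv_ne_zero hy0)
        linear_combination h
      · convert hP (x / y) (hop x hx) hPx using 2 <;> (rw [div_eq_mul_inv]; ring)
    · refine ⟨b, a * y, d, c * y, Q, ?_, hQ, fun x hx hPx => ?_⟩
      · intro h; apply hdet
        apply mul_left_cancel₀ hy0
        linear_combination -h
      · have hx' : x ≠ 0 := fun h => hv (h ▸ hx)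
        convert hP (y / x) (hop' x hx) hPx using 1
        have e1 : a * (y / x) + b = (b * x + a * y) / x := by
          field_simp; ring
        have e2 : c * (y / x) + d = (d * x + c * y) / x := by
          field_simp; ring
        rw [e1, e2, div_div_div_cancel_right₀ hx']

section

open Polynomial

/-- the predicates a polynomial of `x` is bad -/
def PhiP (A : Set Ω) (D : ℕ) (R : (Ω → Prop) → Prop) (P : Ω → Prop) : Prop :=
  ∃ (F : Polynomial Ω) (Q : Ω → Prop), 1 ≤ F.natDegree ∧ F.natDegree ≤ D ∧ R Q ∧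
    ∀ x ∈ A, P x → Q (F.eval x)

theorem PhiP_closed (D : ℕ) {f : ο → Ω → Ω → Ω} (hf : Semi f) {v : σ → Ω} (hv : 0 ∉ Val f v)
    (R : (Ω → Prop) → Prop) : ∀ P, PhiP (Val f v) D R P → ∀ (o : ο) (t : Expr σ ο),
      PhiP (Val f v) D R (fun x => P (f o x (t.value f v))) ∧
        PhiP (Val f v) D R (fun x => P (f o (t.value f v) x)) := by
  intro P hP o t
  obtain ⟨y, hy⟩ : ∃ y, y = t.value f v := ⟨_, rfl⟩
  have hyA : y ∈ Val f v := ⟨t, hy.symm⟩
  have hy0 : y ≠ 0 := fun h => hv (h ▸ hyA)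
  rw [← hy]
  obtain ⟨F, Q, h1, hD, hQ, hP⟩ := hP
  have hop : ∀ x ∈ Val f v, f o x y ∈ Val f v := fun x hx => Val_op o hx hyA
  have hop' : ∀ x ∈ Val f v, f o y x ∈ Val f v := fun x hx => Val_op o hyA hx
  rcases hf o with h | h
  · rw [h] at hop hop' ⊢
    constructor
    · refine ⟨F.comp (X + C y), Q, ?_, ?_, hQ, fun x hx hPx => ?_⟩
      · rw [natDegree_comp, natDegree_X_add_C, mul_one]; exact h1
      · rw [natDegree_comp, natDegree_X_add_C, mul_one]; exact hD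
      · convert hP (x + y) (hop x hx) hPx using 1
        rw [eval_comp]
        simp
    · refine ⟨F.comp (X + C y), Q, ?_, ?_, hQ, fun x hx hPx => ?_⟩
      · rw [natDegree_comp, natDegree_X_add_C, mul_one]; exact h1
      · rw [natDegree_comp, natDegree_X_add_C, mul_one]; exact hD
      · convert hP (y + x) (hop' x hx) hPx using 1
        rw [eval_comp]
        simp [add_comm]
  · rw [h] at hop hop' ⊢
    constructor
    · refine ⟨F.comp (C y * X), Q, ?_, ?_, hQ, fun x hx hPx => ?_⟩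
      · rw [natDegree_comp, natDegree_C_mul_X _ hy0, mul_one]; exact h1
      · rw [natDegree_comp, natDegree_C_mul_X _ hy0, mul_one]; exact hD
      · convert hP (x * y) (hop x hx) hPx using 1
        rw [eval_comp, eval_mul, eval_C, eval_X, mul_comm]
    · refine ⟨F.comp (C y * X), Q, ?_, ?_, hQ, fun x hx hPx => ?_⟩
      · rw [natDegree_comp, natDegree_C_mul_X _ hy0, mul_one]; exact h1
      · rw [natDegree_comp, natDegree_C_mul_X _ hy0, mul_one]; exact hD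
      · convert hP (y * x) (hop' x hx) hPx using 1
        rw [eval_comp, eval_mul, eval_C, eval_X]

end

section

variable [CharZero Ω] [Fintype σ] [Fintype ο] [DecidableEq σ] [DecidableEq ο]

/-- the bound for the pattern tends to zero -/
theorem exists_h (N : ℕ) {ε : ℝ} (hε : 0 < ε) : ∃ h : ℕ,
    (2 * N + 8 : ℝ) / ((h : ℝ) + 1) ≤ ε := by
  obtain ⟨H, hH⟩ := exists_nat_gt ((2 * N + 8 : ℝ) / ε)
  rw [div_lt_iff₀ hε] at hH
  refine ⟨H, ?_⟩
  rw [div_le_iff₀ (by positivity)]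
  nlinarith

theorem main_mob {𝓥 : Submodule (QA Ω) Ω} (h𝓥 : Hyp 𝓥) {f : ο → Ω → Ω → Ω} (hf : Ari f)
    {v : σ → Ω} (hv : 0 ∉ Val f v)
    {p q : ο} (hp : f p = fun x y => x + y) (hq : f q = fun x y => x * y) (hpq : p ≠ q)
    {s : σ} (hs : Transcendental ℚ (v s)) (N : ℕ) {ε : ℝ} (hε : 0 < ε) :
    ∃ n₀, ∀ n ≥ n₀, ∀ a b c d : Ω, a * d ≠ b * c → ∀ V : Submodule (QA Ω) Ω,
      FiniteDimensional (QA Ω) V → finrank (QA Ω) V ≤ N →
      ∑ t ∈ ex σ ο n, ind ((a * t.value f v + b) / (c * t.value f v + d) ∈ 𝓥 ⊔ V) ≤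
        ε * Tn σ ο n := by
  obtain ⟨h, hh1⟩ := exists_h N (half_pos hε)
  let R : (Ω → Prop) → Prop := fun Q => ∃ V : Submodule (QA Ω) Ω, FiniteDimensional (QA Ω) V ∧
    finrank (QA Ω) V ≤ N ∧ ∀ z, Q z → z ∈ 𝓥 ⊔ V
  obtain ⟨n₀, hn₀⟩ := assemble (f := f) (v := v) hp hq hpq s (PhiM (Val f v) R)
    (PhiM_closed hf hv R) (2 * N + 4) h (by omega)
    ((2 * N + 8 : ℝ) / ((h : ℝ) + 1)) (by positivity) (by
      rintro P ⟨a, b, c, d, Q, hdet, ⟨V, hV, hVN, hQV⟩, hP⟩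
      refine le_trans (Finset.sum_le_sum fun i _ => ind_mono fun hi => ?_)
        (base_mob h𝓥 hs hdet V hVN le_rfl)
      exact hQV _ (hP _ ⟨_, comb_lst hp hq s _ _ i⟩ hi)) (half_pos hε)
  refine ⟨n₀, fun n hn a b c d hdet V hV hVN => ?_⟩
  refine (hn₀ n hn (fun x => (a * x + b) / (c * x + d) ∈ 𝓥 ⊔ V)
    ⟨a, b, c, d, fun z => z ∈ 𝓥 ⊔ V, hdet, ⟨V, hV, hVN, fun _ h => h⟩, fun _ _ h => h⟩).trans ?_
  apply mul_le_mul_of_nonneg_right _ (Tn_nonneg n)
  linarith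

theorem main_poly {𝓥 : Submodule (QA Ω) Ω} (h𝓥 : Hyp 𝓥) {f : ο → Ω → Ω → Ω} (hf : Semi f)
    {v : σ → Ω} (hv : 0 ∉ Val f v)
    {p q : ο} (hp : f p = fun x y => x + y) (hq : f q = fun x y => x * y) (hpq : p ≠ q)
    {s : σ} (hs : Transcendental ℚ (v s)) (N D : ℕ) {ε : ℝ} (hε : 0 < ε) :
    ∃ n₀, ∀ n ≥ n₀, ∀ F : Polynomial Ω, 1 ≤ F.natDegree → F.natDegree ≤ D →
      ∀ V : Submodule (QA Ω) Ω, FiniteDimensional (QA Ω) V → finrank (QA Ω) V ≤ N →
      ∑ t ∈ ex σ ο n, ind (F.eval (t.value f v) ∈ 𝓥 ⊔ V) ≤ ε * Tn σ ο n := by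
  obtain ⟨h, hh1⟩ := exists_h D (half_pos hε)
  have hh2 : (D : ℝ) / ((h : ℝ) + 1) ≤ ε / 2 := by
    refine le_trans ?_ hh1
    apply div_le_div_of_nonneg_right _ (by positivity)
    have : (0 : ℝ) ≤ D := by positivity
    linarith
  let R : (Ω → Prop) → Prop := fun Q => ∃ V : Submodule (QA Ω) Ω, FiniteDimensional (QA Ω) V ∧
    finrank (QA Ω) V ≤ N ∧ ∀ z, Q z → z ∈ 𝓥 ⊔ V
  obtain ⟨n₀, hn₀⟩ := assemble (f := f) (v := v) hp hq hpq s (PhiP (Val f v) D R)
    (PhiP_closed D hf hv R) (2 * N + 4) h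
    (by omega) ((D : ℝ) / ((h : ℝ) + 1)) (by positivity) (by
      rintro P ⟨F, Q, h1, hD, ⟨V, hV, hVN, hQV⟩, hP⟩
      refine le_trans (Finset.sum_le_sum fun i _ => ind_mono fun hi => ?_)
        (base_poly h𝓥 hs F h1 hD V hVN le_rfl)
      exact hQV _ (hP _ ⟨_, comb_lst hp hq s _ _ i⟩ hi)) (half_pos hε)
  refine ⟨n₀, fun n hn F h1 hD V hV hVN => ?_⟩
  refine (hn₀ n hn (fun x => F.eval x ∈ 𝓥 ⊔ V)
    ⟨F, fun z => z ∈ 𝓥 ⊔ V, h1, hD, ⟨V, hV, hVN, fun _ h => h⟩, fun _ _ h => h⟩).trans ?_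
  apply mul_le_mul_of_nonneg_right _ (Tn_nonneg n)
  linarith

end

end Pool.Agent.E8helper37.RP
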