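import Pool.Agent.E8helper37.RX.Comb

/-!
# The values of the pattern in a field
-/

set_option autoImplicit false

namespace Pool.Agent.E8helper37.RP

open Finset
open Pool.Agent.E8helper37.RX

variable {σ ο Ω : Type} [Field Ω]

/-- the polynomial -/
def pv (θ : Ω) : List ℕ → Ω
  | [] => 0
  | i :: l => i + θ * pv θ l

/-- the constant term -/
def base (θ : Ω) (h : ℕ) : ℕ → Ω
  | 0 => θ
  | K + 1 => θ * base θ h K + h * θ

theorem addn_value {f : ο → Ω → Ω → Ω} {v : σ → Ω} {p : ο} (hp : f p = fun x y => x + y) (s : σ)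
    (k : ℕ) (t : Expr σ ο) : (addn p s k t).value f v = t.value f v + k * v s := by
  induction k with
  | zero => simp [addn]
  | succ k ih => simp only [addn, Expr.value, ih, hp]; push_cast; ring

theorem comb_value {f : ο → Ω → Ω → Ω} {v : σ → Ω} {p q : ο} (hp : f p = fun x y => x + y)
    (hq : f q = fun x y => x * y) (s : σ) (h : ℕ) (l : List ℕ) (hl : ∀ i ∈ l, i ≤ h) :
    (comb p q s h l).value f v =
      base (v s) h l.length + (v s * (v s - 1)) * pv (v s) l := by
  induction l with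
  | nil => simp [comb, Expr.value, base, pv]
  | cons i l ih =>
    have h1 := hl i (by simp)
    have h2 := ih fun j hj => hl j (by simp [hj])
    simp only [comb, blk, addn_value hp, Expr.value, hq, h2, List.length_cons, base, pv]
    rw [Nat.cast_sub h1]
    ring

theorem pv_ofFn (θ : Ω) {K : ℕ} (i : Fin K → ℕ) :
    pv θ (List.ofFn i) = ∑ k : Fin K, (i k : Ω) * θ ^ (k : ℕ) := by
  induction K with
  | zero => simp [pv]
  | succ K ih =>
    rw [List.ofFn_succ, pv, ih, Fin.sum_univ_succ, Finset.mul_sum]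
    simp only [Fin.val_zero, pow_zero, mul_one, Fin.val_succ]
    congr 1
    refine Finset.sum_congr rfl fun k _ => ?_
    ring

/-- the point -/
noncomputable def pt (θ : Ω) (K h : ℕ) (i : Fin K → Fin (h + 1)) : Ω :=
  base θ h K + (θ * (θ - 1)) * ∑ k : Fin K, ((i k : ℕ) : Ω) * θ ^ (k : ℕ)

theorem comb_lst {f : ο → Ω → Ω → Ω} {v : σ → Ω} {p q : ο} (hp : f p = fun x y => x + y)
    (hq : f q = fun x y => x * y) (s : σ) (K h : ℕ) (i : Fin K → Fin (h + 1)) :
    (comb p q s h (lst i)).value f v = pt (v s) K h i := by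
  rw [comb_value hp hq s h (lst i) (lst_le i)]
  unfold pt lst
  rw [pv_ofFn]
  simp

theorem fam_sum [DecidableEq σ] [DecidableEq ο] {f : ο → Ω → Ω → Ω} {v : σ → Ω} {p q : ο}
    (hp : f p = fun x y => x + y) (hq : f q = fun x y => x * y) (hpq : p ≠ q) (s : σ) (K h : ℕ)
    (P : Ω → Prop) :
    ∑ t ∈ fam p q s K h, ind (P (t.value f v)) =
      ∑ i : Fin K → Fin (h + 1), ind (P (pt (v s) K h i)) := by
  unfold fam
  rw [Finset.sum_image fun i _ j _ hij => fam_inj hpq s K h hij]
  refine Finset.sum_congr rfl fun i _ => ?_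
  rw [comb_lst hp hq]

theorem pt_update (θ : Ω) {K h : ℕ} (i : Fin K → Fin (h + 1)) (k : Fin K) (x : Fin (h + 1)) :
    pt θ K h (Function.update i k x) = pt θ K h (Function.update i k 0) +
      (θ * (θ - 1)) * (θ ^ (k : ℕ) * ((x : ℕ) : Ω)) := by
  unfold pt
  have h1 : ∀ y : Fin (h + 1), ∑ j : Fin K, (((Function.update i k y j : Fin (h + 1)) : ℕ) : Ω) *
      θ ^ (j : ℕ) = ((y : ℕ) : Ω) * θ ^ (k : ℕ) +
        ∑ j ∈ Finset.univ.erase k, ((i j : ℕ) : Ω) * θ ^ (j : ℕ) := by
    intro y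
    rw [← Finset.add_sum_erase _ _ (Finset.mem_univ k), Function.update_self]
    congr 1
    refine Finset.sum_congr rfl fun j hj => ?_
    rw [Function.update_of_ne (Finset.mem_erase.1 hj).1]
  rw [h1 x, h1 0]
  simp only [Fin.val_zero, Nat.cast_zero, zero_mul, zero_add]
  ring

end Pool.Agent.E8helper37.RP
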